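import Pool.Agent.W603.LV.Thm

/-!
The Lang-Vojta degree bound for affine curves in the irreducible varieties given by equations with
few monomials that are high powers, outside an exceptional proper closed subset.
-/

set_option autoImplicit false

namespace Pool.Agent.Results.MP_70ba79_ag.FewMonomials

open FF MvPolynomial Pool.Agent.W603.LV

universe u v w

/-- Let finitely many finite sets `T i` of monomials in `x_0, …, x_(n-1)` be given, such that the
exponents of the `x_j`, `j ∉ U`, in `T i` are multiples of some `N i ≥ (|T i| - 1)²`. There is a
constant `A` with the following property. Let `k` be an algebraically closed field of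
characteristic zero, let `X` be an irreducible closed subvariety of `{x : x_j ≠ 0, j ∈ U}` given by
linear combinations `F i` of the monomials in `T i`, and suppose that every diagonal one-parameter
group that preserves `X` fixes every point of `X`. Then there is a proper closed subset
`X ∩ {G = 0}` of `X` such that, for every affine curve over `k` (given by its function field `K` and
its finite set `S` of places at infinity) and every nonconstant morphism `f` from it to `X` whose
image is not in `{G = 0}`, the degree of `f` is at most `A` times the Euler characteristic
`2 g - 2 + |S|`. -/
theorem result {n : ℕ} {ι : Type v} [Finite ι] (U : Finset (Fin n))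
    (T : ι → Finset (Fin n →₀ ℕ)) (hT : ∀ i, HighPowers U (T i)) :
    ∃ A : ℕ, ∀ (k : Type u) [Field k] [IsAlgClosed k] [CharZero k]
      (F : ι → MvPolynomial (Fin n) k), (∀ i, (F i).support ⊆ T i) → Irred U F →
      (∀ b : Fin n → ℤ, Preserves U F b → ActsTrivially U F b) →
      ∃ G : MvPolynomial (Fin n) k, (∃ x ∈ Pts U F, eval x G ≠ 0) ∧
        ∀ (K : Type w) [Field K] [Algebra k K] [IsFF k K] (S : Finset (Place k K)) (f : Fin n → K),
          IsMap S U F f → aeval f G ≠ 0 → (∃ j, f j ∉ Set.range (algebraMap k K)) →
            mapDeg k f ≤ A * euler S :=
  lang_vojta_unif U T hT

end Pool.Agent.Results.MP_70ba79_ag.FewMonomials
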