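import Pool.Agent.W603.LV.Crit

/-!
A criterion for the Lang-Vojta degree bound: affine varieties with a rigid system of generalised
unit equations.
-/

set_option autoImplicit false

namespace Pool.Agent.Results.MP_70ba79_ag.RigidUnitEquations

open FF Pool.Agent.W603.LV

universe u v w z

/-- Let `X = Spec A` be an integral affine variety over the algebraically closed field `k` of
characteristic zero, embedded in affine space by generators `x 0, …, x (n-1)` of `A`. Let
`∑_a ψ i a * φ i a ^ N i = 0`, `i : I`, be finitely many equations on `X` with invertible `ψ i a`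
and with `s i` terms, `N i ≥ (s i - 1) ^ 2`. Suppose that, however the terms of each equation are
partitioned into blocks with sum zero, the function field of `X` is algebraic over the field
generated over `k` by the ratios of terms in the same block. Then there are a proper closed subset
`{g = 0}` of `X` and a constant `B` such that, for every affine curve over `k` (given by its
function field `K` and its finite set `S` of places at infinity) and every nonconstant morphism `θ`
from it to `X` whose image is not in `{g = 0}`, the degree of the morphism is at most `B` times the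
Euler characteristic `2 g - 2 + |S|` of the curve. -/
theorem result {k : Type u} [Field k] [IsAlgClosed k] [CharZero k] {A : Type v} [CommRing A]
    [IsDomain A] [Algebra k A] {n : ℕ} (x : Fin n → A) (hx : Algebra.adjoin k (Set.range x) = ⊤)
    {I : Type z} [Finite I] {s : I → ℕ} (N : I → ℕ) (ψ φ : (i : I) → Fin (s i) → A)
    (hN0 : ∀ i, 0 < N i) (hN : ∀ i, (s i - 1) ^ 2 ≤ N i) (hψ : ∀ i a, IsUnit (ψ i a))
    (hrel : ∀ i, ∑ a, ψ i a * φ i a ^ N i = 0)
    (hrig : Rigid k (fun i a => ψ i a * φ i a ^ N i)) :
    ∃ g : A, g ≠ 0 ∧ ∃ B : ℕ, ∀ (K : Type w) [Field K] [Algebra k K] [IsFF k K]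
      (S : Finset (Place k K)) (θ : A →ₐ[k] K), (∀ a, ∀ P : Place k K, P ∉ S → 0 ≤ P.ord (θ a)) →
      θ g ≠ 0 → (∃ a, θ a ∉ Set.range (algebraMap k K)) →
        mapDeg k (fun j => θ (x j)) ≤ B * euler S :=
  criterion N ψ φ hN0 hN hψ hrel hrig x hx

end Pool.Agent.Results.MP_70ba79_ag.RigidUnitEquations
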